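import Mathlib

/-!
# Coding finite sequences in polynomial rings

A finite sequence of elements of `H = P[y₁, …, y_m]` is coded by a prime `T`, a power `U` of `T`, a
modulus `M`, an element `e` (all members of the sequence are zero or divide `e`) and an element `c`:
the value at the power `u = T ^ i` is an element `h` which is zero or divides `e` and with
`1 + M u ∣ c - h`.
-/

set_option autoImplicit false

open MvPolynomial

namespace Pool.Agent.H702R3

section defs

variable {H : Type} [CommRing H]

/-- `u` is a power of `T` (for `T` prime in a polynomial ring) -/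
def Pow (T u : H) : Prop := (∀ d, d ∣ u → IsUnit d ∨ T ∣ d) ∧ (T - 1) ∣ (u - 1)

/-- `h` is a value at `u` of the sequence coded by `M, e, c` -/
def V (M e c u h : H) : Prop := (h = 0 ∨ h ∣ e) ∧ (1 + M * u) ∣ (c - h)

/-- there is a coded sequence, starting with zero, ending in `x`, whose steps are
`h ↦ t h + a`, `a ∈ A`. -/
def Code (A : Set H) (t x : H) : Prop :=
  ∃ T U M e c : H, Prime T ∧ Pow T U ∧ (∀ h, V M e c 1 h → h = 0) ∧
    (∀ u, Pow T u → u ∣ U → ∃ h, V M e c u h) ∧
    (∀ u, Pow T u → u * T ∣ U → ∀ h h', V M e c u h → V M e c (u * T) h' → h' - t * h ∈ A) ∧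
    V M e c U x

end defs

section general

variable {R : Type} [CommRing R]

/-- Gödel's moduli are comaximal. -/
theorem isCoprime_moduli {M a b : R} (h : a - b ∣ M) : IsCoprime (1 + M * a) (1 + M * b) := by
  have h1 : IsCoprime (1 + M * a) M := ⟨1, -a, by ring⟩
  have h2 : IsCoprime (1 + M * a) (a - b) := h1.of_isCoprime_of_dvd_right h
  have h3 : IsCoprime (1 + M * a) (M * (a - b)) := h1.mul_right h2
  have h4 : IsCoprime (1 + M * a) ((1 + M * b) + (1 + M * a) * 0 + M * (a - b) * 0) := by
    obtain ⟨p, q, hpq⟩ := h3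
    refine ⟨p + q, -q, ?_⟩
    linear_combination hpq
  simpa using h4

/-- Chinese remainder theorem -/
theorem crt (N : ℕ) (q h : ℕ → R)
    (hq : ∀ i ≤ N, ∀ j ≤ N, i ≠ j → IsCoprime (q i) (q j)) :
    ∃ c, ∀ i ≤ N, q i ∣ c - h i := by
  induction N with
  | zero => exact ⟨h 0, fun i hi => by obtain rfl : i = 0 := by omega
                                       simp⟩
  | succ N ih =>
    obtain ⟨c, hc⟩ := ih fun i hi j hj => hq i (by omega) j (by omega)
    have hcop : IsCoprime (∏ i ∈ Finset.range (N + 1), q i) (q (N + 1)) := by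
      refine IsCoprime.prod_left fun i hi => hq i ?_ _ le_rfl ?_
      · have := Finset.mem_range.1 hi
        omega
      · have := Finset.mem_range.1 hi
        omega
    obtain ⟨p, r, hpr⟩ := hcop
    refine ⟨c + p * (∏ i ∈ Finset.range (N + 1), q i) * (h (N + 1) - c), fun i hi => ?_⟩
    rcases Nat.lt_or_ge i (N + 1) with hlt | hge
    · have h1 : q i ∣ ∏ i ∈ Finset.range (N + 1), q i :=
        Finset.dvd_prod_of_mem _ (Finset.mem_range.2 hlt)
      have h2 := hc i (by omega)
      have h3 : q i ∣ p * (∏ i ∈ Finset.range (N + 1), q i) * (h (N + 1) - c) :=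
        (h1.mul_left p).mul_right _
      have : c + p * (∏ i ∈ Finset.range (N + 1), q i) * (h (N + 1) - c) - h i =
        (c - h i) + p * (∏ i ∈ Finset.range (N + 1), q i) * (h (N + 1) - c) := by ring
      rw [this]
      exact dvd_add h2 h3
    · obtain rfl : i = N + 1 := by omega
      refine ⟨r * (c - h (N + 1)), ?_⟩
      linear_combination (h (N + 1) - c) * hpr

end general

variable {P : Type} [Field P] {m : ℕ}



theorem unit_iff {x : MvPolynomial (Fin m) P} : IsUnit x ↔ ∃ a : P, a ≠ 0 ∧ x = C a := by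
  rw [MvPolynomial.isUnit_iff_eq_C_of_isReduced]
  constructor
  · rintro ⟨a, ha, h⟩
    exact ⟨a, ha.ne_zero, h⟩
  · rintro ⟨a, ha, h⟩
    exact ⟨a, isUnit_iff_ne_zero.2 ha, h⟩

/-- constants are definable -/
theorem const_iff {x : MvPolynomial (Fin m) P} : (x = 0 ∨ IsUnit x) ↔ ∃ a : P, x = C a := by
  rw [unit_iff]
  constructor
  · rintro (rfl | ⟨a, -, h⟩)
    · exact ⟨0, by simp⟩
    · exact ⟨a, h⟩
  · rintro ⟨a, rfl⟩
    by_cases h : a = 0
    · left; simp [h]
    · exact Or.inr ⟨a, h, rfl⟩

theorem prime_sub_one_not_unit {T : MvPolynomial (Fin m) P} (hT : Prime T) : ¬ IsUnit (T - 1) := by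
  intro h
  obtain ⟨a, -, h⟩ := unit_iff.1 h
  have : T = C (a + 1) := by
    rw [C_add, ← h]
    simp
  exact (const_iff.2 ⟨_, this⟩).elim hT.ne_zero hT.not_isUnit

/-- powers of a prime -/
theorem pow_iff {T u : MvPolynomial (Fin m) P} (hT : Prime T) : Pow T u ↔ ∃ i : ℕ, u = T ^ i := by
  constructor
  · rintro ⟨h1, h2⟩
    have hu : u ≠ 0 := by
      rintro rfl
      rcases h1 (T - 1) (dvd_zero _) with h | h
      · exact prime_sub_one_not_unit hT h
      · have : T ∣ 1 := by
          have := (dvd_refl T).sub h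
          simpa using this
        exact hT.not_isUnit (isUnit_of_dvd_one this)
    obtain ⟨n, v, hv, rfl⟩ := WfDvdMonoid.max_power_factor hu hT.irreducible
    have hvu : IsUnit v := (h1 v (dvd_mul_left _ _)).resolve_right hv
    obtain ⟨a, ha, rfl⟩ := unit_iff.1 hvu
    have h3 : T - 1 ∣ C a - 1 := by
      have h4 : T - 1 ∣ (T ^ n - 1) * C a := by
        have := sub_dvd_pow_sub_pow T 1 n
        rw [one_pow] at this
        exact this.mul_right _
      have := h2.sub h4
      have e : T ^ n * C a - 1 - (T ^ n - 1) * C a = C a - 1 := by ring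
      rwa [e] at this
    have h5 : (C a - 1 : MvPolynomial (Fin m) P) = 0 := by
      by_contra hne
      have : IsUnit (C a - 1 : MvPolynomial (Fin m) P) := by
        rw [← C_1, ← C_sub] at hne ⊢
        exact (const_iff.2 ⟨_, rfl⟩).resolve_left hne
      exact prime_sub_one_not_unit hT (isUnit_of_dvd_unit h3 this)
    refine ⟨n, ?_⟩
    rw [sub_eq_zero.1 h5, mul_one]
  · rintro ⟨i, rfl⟩
    refine ⟨fun d hd => ?_, ?_⟩
    · obtain ⟨j, -, hj⟩ := (dvd_prime_pow hT i).1 hd
      rcases Nat.eq_zero_or_pos j with rfl | hj0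
      · left
        simpa using hj
      · right
        exact (dvd_pow_self T hj0.ne').trans hj.symm.dvd
    · have := sub_dvd_pow_sub_pow T 1 i
      rwa [one_pow] at this

/-- soundness of the coding -/
theorem Code.sound {A : Set (MvPolynomial (Fin m) P)} {t x : MvPolynomial (Fin m) P}
    (h : Code A t x) (B : Subring (MvPolynomial (Fin m) P)) (hA : A ⊆ B) (ht : t ∈ B) :
    x ∈ B := by
  obtain ⟨T, U, M, e, c, hT, hU, h0, hex, hstep, hlast⟩ := h
  obtain ⟨N, rfl⟩ := (pow_iff hT).1 hU
  have key : ∀ i ≤ N, ∀ h, V M e c (T ^ i) h → h ∈ B := by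
    intro i
    induction i with
    | zero =>
      intro _ h hh
      rw [pow_zero] at hh
      rw [h0 h hh]
      exact B.zero_mem
    | succ i ih =>
      intro hi h hh
      obtain ⟨h', hh'⟩ := hex (T ^ i) ((pow_iff hT).2 ⟨i, rfl⟩) (pow_dvd_pow T (by omega))
      have h1 := hstep (T ^ i) ((pow_iff hT).2 ⟨i, rfl⟩)
        (by rw [← pow_succ]; exact pow_dvd_pow T hi) h' h hh' (by rwa [← pow_succ])
      have h2 := B.add_mem (hA h1) (B.mul_mem ht (ih (by omega) h' hh'))
      simpa using h2
  exact key N le_rfl x hlast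

end Pool.Agent.H702R3
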