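import Pool.Agent.H702R3.Code

set_option autoImplicit false

open MvPolynomial

namespace Pool.Agent.H702R3

variable {P : Type} [Field P] {m : ℕ}

theorem eq_zero_of_dvd_of_degree {D : ℕ} {w d : MvPolynomial (Fin m) P}
    (hw : D < totalDegree w) (hd : totalDegree d ≤ D) (h : 1 + w ∣ d) : d = 0 := by
  by_contra hne
  have h1 := totalDegree_le_of_dvd_of_isDomain h hne
  have h2 : totalDegree (1 + w) = totalDegree w := by
    apply totalDegree_add_eq_right_of_totalDegree_lt
    rw [totalDegree_one]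
    omega
  omega

/-- completeness of the coding -/
theorem Code.complete {A : Set (MvPolynomial (Fin (m + 1)) P)} {t : MvPolynomial (Fin (m + 1)) P}
    (N : ℕ) (h : ℕ → MvPolynomial (Fin (m + 1)) P) (h0 : h 0 = 0)
    (hs : ∀ i < N, h (i + 1) - t * h i ∈ A) : Code A t (h N) := by
  classical
  set T : MvPolynomial (Fin (m + 1)) P := X 0 with hTdef
  have hT : Prime T := X_prime
  set e : MvPolynomial (Fin (m + 1)) P :=
    ∏ i ∈ Finset.range (N + 1), (if h i = 0 then 1 else h i) with he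
  have he0 : e ≠ 0 := by
    rw [he, Finset.prod_ne_zero_iff]
    intro i _
    split_ifs with hi
    · exact one_ne_zero
    · exact hi
  have hdig : ∀ i ≤ N, h i = 0 ∨ h i ∣ e := by
    intro i hi
    by_cases hz : h i = 0
    · exact Or.inl hz
    · right
      have : (if h i = 0 then (1 : MvPolynomial (Fin (m + 1)) P) else h i) ∣ e :=
        Finset.dvd_prod_of_mem (fun i => if h i = 0 then (1 : MvPolynomial (Fin (m + 1)) P) else h i)
          (Finset.mem_range.2 (by omega))
      rwa [if_neg hz] at this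
  set D := totalDegree e with hD
  have hdeg : ∀ x : MvPolynomial (Fin (m + 1)) P, x = 0 ∨ x ∣ e → totalDegree x ≤ D := by
    rintro x (rfl | hx)
    · simp
    · exact totalDegree_le_of_dvd_of_isDomain hx he0
  have hTinj : ∀ i j : ℕ, i ≠ j → T ^ i - T ^ j ≠ 0 := by
    intro i j hij hz
    have := congrArg totalDegree (sub_eq_zero.1 hz)
    rw [hTdef, totalDegree_X_pow, totalDegree_X_pow] at this
    exact hij this
  set Q : MvPolynomial (Fin (m + 1)) P :=
    ∏ p ∈ (Finset.range (N + 1)).offDiag, (T ^ p.1 - T ^ p.2) with hQ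
  have hQ0 : Q ≠ 0 := by
    rw [hQ, Finset.prod_ne_zero_iff]
    intro p hp
    exact hTinj _ _ (Finset.mem_offDiag.1 hp).2.2
  set M : MvPolynomial (Fin (m + 1)) P := T ^ (D + 1) * Q with hM
  have hTp : ∀ i : ℕ, T ^ i ≠ 0 := fun i => pow_ne_zero _ hT.ne_zero
  have hdvd : ∀ i ≤ N, ∀ j ≤ N, i ≠ j → T ^ i - T ^ j ∣ M := by
    intro i hi j hj hij
    refine Dvd.dvd.mul_left ?_ _
    exact Finset.dvd_prod_of_mem (fun p : ℕ × ℕ => T ^ p.1 - T ^ p.2)
      (a := (i, j)) (Finset.mem_offDiag.2 ⟨Finset.mem_range.2 (by omega),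
        Finset.mem_range.2 (by omega), hij⟩)
  have hMdeg : ∀ i : ℕ, D < totalDegree (M * T ^ i) := by
    intro i
    rw [totalDegree_mul_of_isDomain (mul_ne_zero (hTp _) hQ0) (hTp _),
      totalDegree_mul_of_isDomain (hTp _) hQ0, hTdef, totalDegree_X_pow, totalDegree_X_pow]
    omega
  obtain ⟨c, hc⟩ := crt N (fun i => 1 + M * T ^ i) h
    (fun i hi j hj hij => isCoprime_moduli (hdvd i hi j hj hij))
  have hV : ∀ i ≤ N, V M e c (T ^ i) (h i) := fun i hi => ⟨hdig i hi, hc i hi⟩
  have huniq : ∀ i ≤ N, ∀ x, V M e c (T ^ i) x → x = h i := by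
    rintro i hi x ⟨hx1, hx2⟩
    have h1 : 1 + M * T ^ i ∣ x - h i := by
      have := (hc i hi).sub hx2
      have e1 : c - h i - (c - x) = x - h i := by ring
      rwa [e1] at this
    refine sub_eq_zero.1 (eq_zero_of_dvd_of_degree (hMdeg i) ?_ h1)
    refine (totalDegree_sub _ _).trans (max_le (hdeg _ hx1) (hdeg _ (hdig i hi)))
  refine ⟨T, T ^ N, M, e, c, hT, (pow_iff hT).2 ⟨N, rfl⟩, ?_, ?_, ?_, hV N le_rfl⟩
  · intro x hx
    have := huniq 0 (Nat.zero_le _) x (by rwa [pow_zero])
    rw [this, h0]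
  · rintro u hu hud
    obtain ⟨i, rfl⟩ := (pow_iff hT).1 hu
    have hi : i ≤ N := (pow_dvd_pow_iff hT.ne_zero hT.not_isUnit).1 hud
    exact ⟨h i, hV i hi⟩
  · rintro u hu hud x x' hx hx'
    obtain ⟨i, rfl⟩ := (pow_iff hT).1 hu
    rw [← pow_succ] at hud hx'
    have hi : i + 1 ≤ N := (pow_dvd_pow_iff hT.ne_zero hT.not_isUnit).1 hud
    rw [huniq i (by omega) x hx, huniq (i + 1) hi x' hx']
    exact hs i (by omega)

/-- `h ↦ t h + a` sequences -/
def Chain (A : Set (MvPolynomial (Fin m) P)) (t x : MvPolynomial (Fin m) P) : Prop :=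
  ∃ (N : ℕ) (h : ℕ → MvPolynomial (Fin m) P), h 0 = 0 ∧ (∀ i < N, h (i + 1) - t * h i ∈ A) ∧
    h N = x

theorem Chain.zero (A : Set (MvPolynomial (Fin m) P)) (t : MvPolynomial (Fin m) P) :
    Chain A t 0 := ⟨0, fun _ => 0, rfl, fun i hi => by omega, rfl⟩

theorem Chain.step {A : Set (MvPolynomial (Fin m) P)} {t x a : MvPolynomial (Fin m) P}
    (hx : Chain A t x) (ha : a ∈ A) : Chain A t (t * x + a) := by
  obtain ⟨N, h, h0, hs, rfl⟩ := hx
  refine ⟨N + 1, fun i => if i ≤ N then h i else t * h N + a, by simp [h0], fun i hi => ?_, by simp⟩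
  rcases Nat.lt_or_ge i N with hlt | hge
  · have := hs i hlt
    simpa [hlt.le, Nat.succ_le_of_lt hlt] using this
  · obtain rfl : i = N := by omega
    simpa using ha

theorem Chain.aeval (S : Subalgebra P (MvPolynomial (Fin m) P)) (t : MvPolynomial (Fin m) P)
    (p : Polynomial S) : Chain (S : Set (MvPolynomial (Fin m) P)) t (Polynomial.aeval t p) := by
  induction hn : p.natDegree using Nat.strong_induction_on generalizing p with
  | _ n ih =>
    have hp : Polynomial.aeval t p = t * Polynomial.aeval t p.divX + (p.coeff 0 : S) := by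
      conv_lhs => rw [← Polynomial.divX_mul_X_add p]
      rw [map_add, map_mul, Polynomial.aeval_X, Polynomial.aeval_C, mul_comm]
      rfl
    rw [hp]
    rcases Nat.eq_zero_or_pos n with h0 | hpos
    · have : p.divX = 0 := by
        rw [Polynomial.divX_eq_zero_iff]
        exact Polynomial.eq_C_of_natDegree_eq_zero (by omega)
      rw [this, map_zero]
      exact (Chain.zero _ _).step (p.coeff 0).2
    · refine Chain.step (ih _ ?_ p.divX rfl) (p.coeff 0).2
      rw [Polynomial.natDegree_divX_eq_natDegree_tsub_one]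
      omega

theorem mem_adjoin_insert_iff {H : Type} [CommRing H] [Algebra P H] (S : Subalgebra P H) (t x : H)
    (hx : x ∈ S ⊔ Algebra.adjoin P {t}) : ∃ p : Polynomial S, Polynomial.aeval t p = x := by
  have : S ⊔ Algebra.adjoin P {t} ≤ ((Polynomial.aeval t : Polynomial S →ₐ[S] H).range.restrictScalars P) := by
    refine sup_le ?_ ?_
    · intro a ha
      exact ⟨Polynomial.C ⟨a, ha⟩, by simp⟩
    · rw [Algebra.adjoin_le_iff]
      rintro _ rfl
      exact ⟨Polynomial.X, by simp⟩
  obtain ⟨p, hp⟩ := this hx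
  exact ⟨p, hp⟩

end Pool.Agent.H702R3
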