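import Mathlib

/-!
# Definable predicates over a ring with named constants

`Df c φ` says that the predicate `φ` on tuples `α → H` is given by a first-order formula of the
ring language whose extra variables are evaluated at the constants `c : P → H`.
-/

set_option autoImplicit false
set_option linter.style.haveILetI false

open FirstOrder FirstOrder.Language FirstOrder.Ring

namespace Pool.Agent.H702R3

variable {P H : Type} [CommRing H] (c : P → H)

/-- Term functions. -/
def Tm {α : Type} (t : (α → H) → H) : Prop :=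
  letI := compatibleRingOfRing H
  ∃ τ : Language.ring.Term (α ⊕ P), ∀ v : α → H, τ.realize (Sum.elim v c) = t v

/-- Definable predicates. -/
def Df {α : Type} (φ : (α → H) → Prop) : Prop :=
  letI := compatibleRingOfRing H
  ∃ ψ : Language.ring.Formula (α ⊕ P), ∀ v : α → H, ψ.Realize (Sum.elim v c) ↔ φ v

variable {c} {α β : Type}

theorem Tm.var (i : α) : Tm c (fun v : α → H => v i) :=
  letI := compatibleRingOfRing H
  ⟨Term.var (Sum.inl i), fun _ => rfl⟩

theorem Tm.const (p : P) : Tm c (fun _ : α → H => c p) :=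
  letI := compatibleRingOfRing H
  ⟨Term.var (Sum.inr p), fun _ => rfl⟩

theorem Tm.add {s t : (α → H) → H} (hs : Tm c s) (ht : Tm c t) : Tm c (fun v => s v + t v) := by
  letI := compatibleRingOfRing H
  obtain ⟨σ, hσ⟩ := hs
  obtain ⟨τ, hτ⟩ := ht
  exact ⟨σ + τ, fun v => by rw [realize_add, hσ, hτ]⟩

theorem Tm.mul {s t : (α → H) → H} (hs : Tm c s) (ht : Tm c t) : Tm c (fun v => s v * t v) := by
  letI := compatibleRingOfRing H
  obtain ⟨σ, hσ⟩ := hs
  obtain ⟨τ, hτ⟩ := ht
  exact ⟨σ * τ, fun v => by rw [realize_mul, hσ, hτ]⟩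

theorem Tm.neg {s : (α → H) → H} (hs : Tm c s) : Tm c (fun v => - s v) := by
  letI := compatibleRingOfRing H
  obtain ⟨σ, hσ⟩ := hs
  exact ⟨-σ, fun v => by rw [realize_neg, hσ]⟩

theorem Tm.sub {s t : (α → H) → H} (hs : Tm c s) (ht : Tm c t) : Tm c (fun v => s v - t v) := by
  simpa only [sub_eq_add_neg] using hs.add ht.neg

theorem Tm.zero : Tm c (fun _ : α → H => 0) := by
  letI := compatibleRingOfRing H
  exact ⟨0, fun v => by rw [realize_zero]⟩

theorem Tm.one : Tm c (fun _ : α → H => 1) := by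
  letI := compatibleRingOfRing H
  exact ⟨1, fun v => by rw [realize_one]⟩

/-- substitution in terms -/
theorem Tm.comp {t : (α → H) → H} (ht : Tm c t) {f : (β → H) → (α → H)}
    (hf : ∀ i, Tm c (fun v => f v i)) : Tm c (fun v => t (f v)) := by
  letI := compatibleRingOfRing H
  obtain ⟨τ, hτ⟩ := ht
  choose σ hσ using hf
  refine ⟨τ.subst (Sum.elim σ (fun p => Term.var (Sum.inr p))), fun v => ?_⟩
  have h := hτ (f v)
  rw [Term.realize_subst]
  refine Eq.trans ?_ h
  congr 1
  funext i
  cases i with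
  | inl i => simpa using hσ i v
  | inr p => rfl

theorem Df.eq {s t : (α → H) → H} (hs : Tm c s) (ht : Tm c t) : Df c (fun v => s v = t v) := by
  letI := compatibleRingOfRing H
  obtain ⟨σ, hσ⟩ := hs
  obtain ⟨τ, hτ⟩ := ht
  exact ⟨σ.equal τ, fun v => by rw [Formula.realize_equal, hσ, hτ]⟩

theorem Df.not {φ : (α → H) → Prop} (h : Df c φ) : Df c (fun v => ¬ φ v) := by
  letI := compatibleRingOfRing H
  obtain ⟨ψ, hψ⟩ := h
  exact ⟨ψ.not, fun v => by rw [Formula.realize_not, hψ]⟩

theorem Df.and {φ χ : (α → H) → Prop} (h : Df c φ) (k : Df c χ) :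
    Df c (fun v => φ v ∧ χ v) := by
  letI := compatibleRingOfRing H
  obtain ⟨ψ, hψ⟩ := h
  obtain ⟨θ, hθ⟩ := k
  exact ⟨ψ ⊓ θ, fun v => by rw [Formula.realize_inf, hψ, hθ]⟩

theorem Df.congr {φ χ : (α → H) → Prop} (h : Df c φ) (k : ∀ v, φ v ↔ χ v) : Df c χ := by
  obtain ⟨ψ, hψ⟩ := h
  exact ⟨ψ, fun v => by rw [hψ, k]⟩

theorem Df.or {φ χ : (α → H) → Prop} (h : Df c φ) (k : Df c χ) :
    Df c (fun v => φ v ∨ χ v) :=
  (h.not.and k.not).not.congr fun v => by tauto

theorem Df.imp {φ χ : (α → H) → Prop} (h : Df c φ) (k : Df c χ) :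
    Df c (fun v => φ v → χ v) :=
  (h.and k.not).not.congr fun v => by tauto

/-- substitution -/
theorem Df.comp {φ : (α → H) → Prop} (h : Df c φ) {f : (β → H) → (α → H)}
    (hf : ∀ i, Tm c (fun v => f v i)) : Df c (fun v => φ (f v)) := by
  letI := compatibleRingOfRing H
  obtain ⟨ψ, hψ⟩ := h
  choose σ hσ using hf
  refine ⟨BoundedFormula.subst ψ (Sum.elim σ (fun p => Term.var (Sum.inr p))), fun v => ?_⟩
  refine Iff.trans ?_ (hψ (f v))
  rw [Formula.Realize, BoundedFormula.realize_subst, Formula.Realize]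
  have : (fun a => Term.realize (Sum.elim v c)
      ((Sum.elim σ (fun p => Term.var (Sum.inr p)) : α ⊕ P → Language.ring.Term (β ⊕ P)) a))
      = Sum.elim (f v) c := by
    funext i
    cases i with
    | inl i => simpa using hσ i v
    | inr p => rfl
  rw [this]

/-- adding a variable -/
def cons (v : α → H) (x : H) : Option α → H := fun o => o.elim x v

/-- existential quantifier -/
theorem Df.ex {φ : (α → H) → H → Prop} (h : Df c (fun w : Option α → H => φ (w ∘ some) (w none))) :
    Df c (fun v => ∃ x, φ v x) := by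
  letI := compatibleRingOfRing H
  obtain ⟨ψ, hψ⟩ := h
  let g : Option α ⊕ P → (α ⊕ P) ⊕ Unit := fun a => match a with
    | Sum.inl none => Sum.inr ()
    | Sum.inl (some i) => Sum.inl (Sum.inl i)
    | Sum.inr p => Sum.inl (Sum.inr p)
  refine ⟨Formula.iExs Unit (ψ.relabel g : Language.ring.Formula ((α ⊕ P) ⊕ Unit)), fun v => ?_⟩
  rw [Formula.realize_iExs]
  have key : ∀ x : H, (ψ.relabel g : Language.ring.Formula ((α ⊕ P) ⊕ Unit)).Realize
      (Sum.elim (Sum.elim v c) (fun _ => x)) ↔ φ v x := by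
    intro x
    rw [Formula.realize_relabel]
    have : (Sum.elim (Sum.elim v c) (fun _ : Unit => x)) ∘ g = Sum.elim (cons v x) c := by
      funext a
      rcases a with (_ | i) | p <;> rfl
    rw [this, hψ]
    rfl
  constructor
  · rintro ⟨i, hi⟩
    refine ⟨i (), (key _).1 ?_⟩
    have : i = fun _ => i () := by funext u; rfl
    rw [← this]
    exact hi
  · rintro ⟨x, hx⟩
    exact ⟨fun _ => x, (key x).2 hx⟩

/-- universal quantifier -/
theorem Df.all {φ : (α → H) → H → Prop}
    (h : Df c (fun w : Option α → H => φ (w ∘ some) (w none))) :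
    Df c (fun v => ∀ x, φ v x) :=
  (Df.ex (φ := fun v x => ¬ φ v x) h.not).not.congr fun v => by
    push Not
    rfl

theorem Tm.wk {t : (α → H) → H} (ht : Tm c t) : Tm c (fun w : Option α → H => t (w ∘ some)) :=
  ht.comp (f := fun w : Option α → H => w ∘ some) fun i => Tm.var (some i)

theorem Tm.top : Tm c (fun w : Option α → H => w none) := Tm.var none

/-- divisibility -/
theorem Df.dvd {s t : (α → H) → H} (hs : Tm c s) (ht : Tm c t) : Df c (fun v => s v ∣ t v) :=
  Df.ex (φ := fun v x => t v = s v * x) (Df.eq ht.wk (hs.wk.mul Tm.top))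

theorem Df.unit {s : (α → H) → H} (hs : Tm c s) : Df c (fun v => IsUnit (s v)) :=
  (Df.dvd hs Tm.one).congr fun v => isUnit_iff_dvd_one.symm

theorem Df.prime {s : (α → H) → H} (hs : Tm c s) : Df c (fun v => Prime (s v)) := by
  have h1 : Df c (fun v => s v = 0) := Df.eq hs Tm.zero
  have h2 : Df c (fun v => IsUnit (s v)) := Df.unit hs
  have h3 : Df c (fun v => ∀ x y, s v ∣ x * y → s v ∣ x ∨ s v ∣ y) :=
    Df.all (φ := fun v x => ∀ y, s v ∣ x * y → s v ∣ x ∨ s v ∣ y) <|
      Df.all (φ := fun (w : Option α → H) y => s (w ∘ some) ∣ w none * y →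
        s (w ∘ some) ∣ w none ∨ s (w ∘ some) ∣ y) <|
      ((Df.dvd hs.wk.wk (Tm.top.wk.mul Tm.top)).imp
        ((Df.dvd hs.wk.wk Tm.top.wk).or (Df.dvd hs.wk.wk Tm.top)))
  exact (h1.not.and (h2.not.and h3)).congr fun v => Iff.rfl

end Pool.Agent.H702R3
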