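import Pool.Agent.H702R3.Def
import Pool.Agent.H702R3.Complete

set_option autoImplicit false
set_option linter.style.haveILetI false

open FirstOrder FirstOrder.Language FirstOrder.Ring

namespace Pool.Agent.H702R3

section general

variable {P H : Type} [CommRing H] {c : P → H} {α : Type}

/-- existential quantification over a finite tuple -/
theorem Df.exFin {γ : Type} [Finite γ] {φ : (α → H) → (γ → H) → Prop}
    (h : Df c (fun w : α ⊕ γ → H => φ (w ∘ Sum.inl) (w ∘ Sum.inr))) :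
    Df c (fun v => ∃ z, φ v z) := by
  letI := compatibleRingOfRing H
  obtain ⟨ψ, hψ⟩ := h
  let g : (α ⊕ γ) ⊕ P → (α ⊕ P) ⊕ γ := fun a => match a with
    | Sum.inl (Sum.inl i) => Sum.inl (Sum.inl i)
    | Sum.inl (Sum.inr j) => Sum.inr j
    | Sum.inr p => Sum.inl (Sum.inr p)
  refine ⟨Formula.iExs γ (ψ.relabel g : Language.ring.Formula ((α ⊕ P) ⊕ γ)), fun v => ?_⟩
  rw [Formula.realize_iExs]
  refine exists_congr fun z => ?_
  rw [Formula.realize_relabel]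
  have : (Sum.elim (Sum.elim v c) z) ∘ g = Sum.elim (Sum.elim v z) c := by
    funext a
    rcases a with (i | j) | p <;> rfl
  rw [this, hψ]
  rfl

theorem Df.true : Df c (fun _ : α → H => True) :=
  (Df.eq Tm.zero Tm.zero).congr fun v => by simp

theorem Df.forallFinset {ι : Type} (s : Finset ι) {φ : ι → (α → H) → Prop}
    (h : ∀ i, Df c (φ i)) : Df c (fun v => ∀ i ∈ s, φ i v) := by
  classical
  induction s using Finset.induction_on with
  | empty => exact Df.true.congr fun v => by simp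
  | insert a s ha ih => exact ((h a).and ih).congr fun v => by simp

theorem Df.forallFin {n : ℕ} {φ : Fin n → (α → H) → Prop}
    (h : ∀ i, Df c (φ i)) : Df c (fun v => ∀ i, φ i v) :=
  (Df.forallFinset Finset.univ h).congr fun v => by simp

theorem Df.pow {T u : (α → H) → H} (hT : Tm c T) (hu : Tm c u) :
    Df c (fun v => Pow (T v) (u v)) := by
  refine Df.and (φ := fun v => ∀ d, d ∣ u v → IsUnit d ∨ T v ∣ d) ?_
    (Df.dvd (hT.sub Tm.one) (hu.sub Tm.one))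
  exact Df.all (φ := fun v d => d ∣ u v → IsUnit d ∨ T v ∣ d)
    ((Df.dvd Tm.top hu.wk).imp ((Df.unit Tm.top).or (Df.dvd hT.wk Tm.top)))

theorem Df.V {M e k u h : (α → H) → H} (hM : Tm c M) (he : Tm c e) (hk : Tm c k) (hu : Tm c u)
    (hh : Tm c h) : Df c (fun v => V (M v) (e v) (k v) (u v) (h v)) :=
  ((Df.eq hh Tm.zero).or (Df.dvd hh he)).and (Df.dvd (Tm.one.add (hM.mul hu)) (hk.sub hh))

theorem Df.code {A : (α → H) → Set H} (hA : Df c (fun w : Option α → H => w none ∈ A (w ∘ some)))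
    {t x : (α → H) → H} (ht : Tm c t) (hx : Tm c x) :
    Df c (fun v => Code (A v) (t v) (x v)) := by
  have main : Df c (fun v : α → H => ∃ z : Fin 5 → H, Prime (z 0) ∧ Pow (z 0) (z 1) ∧
      (∀ h, H702R3.V (z 2) (z 3) (z 4) 1 h → h = 0) ∧
      (∀ u, Pow (z 0) u → u ∣ z 1 → ∃ h, H702R3.V (z 2) (z 3) (z 4) u h) ∧
      (∀ u, Pow (z 0) u → u * z 0 ∣ z 1 → ∀ h h', H702R3.V (z 2) (z 3) (z 4) u h →
        H702R3.V (z 2) (z 3) (z 4) (u * z 0) h' → h' - t v * h ∈ A v) ∧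
      H702R3.V (z 2) (z 3) (z 4) (z 1) (x v)) := by
    refine Df.exFin ?_
    have hz : ∀ i, Tm c (fun w : α ⊕ Fin 5 → H => (w ∘ Sum.inr) i) := fun i => Tm.var (Sum.inr i)
    have hz1 : ∀ i, Tm c (fun w : Option (α ⊕ Fin 5) → H => ((w ∘ some) ∘ Sum.inr) i) :=
      fun i => Tm.var (some (Sum.inr i))
    have hz2 : ∀ i, Tm c (fun w : Option (Option (α ⊕ Fin 5)) → H =>
      (((w ∘ some) ∘ some) ∘ Sum.inr) i) :=
      fun i => Tm.var (some (some (Sum.inr i)))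
    have hz3 : ∀ i, Tm c (fun w : Option (Option (Option (α ⊕ Fin 5))) → H =>
      ((((w ∘ some) ∘ some) ∘ some) ∘ Sum.inr) i) :=
      fun i => Tm.var (some (some (some (Sum.inr i))))
    refine Df.and (Df.prime (hz 0)) (Df.and (Df.pow (hz 0) (hz 1)) (Df.and ?_ (Df.and ?_
      (Df.and ?_ (Df.V (hz 2) (hz 3) (hz 4) (hz 1) (hx.comp fun i => Tm.var (Sum.inl i)))))))
    · refine Df.all (φ := fun (w : α ⊕ Fin 5 → H) h => H702R3.V ((w ∘ Sum.inr) 2) ((w ∘ Sum.inr) 3)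
        ((w ∘ Sum.inr) 4) 1 h → h = 0) ?_
      exact (Df.V (hz1 2) (hz1 3) (hz1 4) Tm.one Tm.top).imp (Df.eq Tm.top Tm.zero)
    · refine Df.all (φ := fun (w : α ⊕ Fin 5 → H) u => Pow ((w ∘ Sum.inr) 0) u →
        u ∣ (w ∘ Sum.inr) 1 → ∃ h, H702R3.V ((w ∘ Sum.inr) 2) ((w ∘ Sum.inr) 3)
        ((w ∘ Sum.inr) 4) u h) ?_
      refine (Df.pow (hz1 0) Tm.top).imp ((Df.dvd Tm.top (hz1 1)).imp ?_)
      refine Df.ex (φ := fun (w : Option (α ⊕ Fin 5) → H) h => H702R3.V (((w ∘ some) ∘ Sum.inr) 2)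
        (((w ∘ some) ∘ Sum.inr) 3) (((w ∘ some) ∘ Sum.inr) 4) (w none) h) ?_
      exact Df.V (hz2 2) (hz2 3) (hz2 4) (Tm.var (some none)) Tm.top
    · refine Df.all (φ := fun (w : α ⊕ Fin 5 → H) u => Pow ((w ∘ Sum.inr) 0) u →
        u * (w ∘ Sum.inr) 0 ∣ (w ∘ Sum.inr) 1 → ∀ h h',
        H702R3.V ((w ∘ Sum.inr) 2) ((w ∘ Sum.inr) 3) ((w ∘ Sum.inr) 4) u h →
        H702R3.V ((w ∘ Sum.inr) 2) ((w ∘ Sum.inr) 3) ((w ∘ Sum.inr) 4) (u * (w ∘ Sum.inr) 0) h' →
        h' - t (w ∘ Sum.inl) * h ∈ A (w ∘ Sum.inl)) ?_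
      refine (Df.pow (hz1 0) Tm.top).imp ((Df.dvd (Tm.top.mul (hz1 0)) (hz1 1)).imp ?_)
      refine Df.all (φ := fun (w : Option (α ⊕ Fin 5) → H) h => ∀ h',
        H702R3.V (((w ∘ some) ∘ Sum.inr) 2) (((w ∘ some) ∘ Sum.inr) 3) (((w ∘ some) ∘ Sum.inr) 4)
          (w none) h →
        H702R3.V (((w ∘ some) ∘ Sum.inr) 2) (((w ∘ some) ∘ Sum.inr) 3) (((w ∘ some) ∘ Sum.inr) 4)
          (w none * ((w ∘ some) ∘ Sum.inr) 0) h' →
        h' - t ((w ∘ some) ∘ Sum.inl) * h ∈ A ((w ∘ some) ∘ Sum.inl)) ?_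
      refine Df.all (φ := fun (w : Option (Option (α ⊕ Fin 5)) → H) h' =>
        H702R3.V ((((w ∘ some) ∘ some) ∘ Sum.inr) 2) ((((w ∘ some) ∘ some) ∘ Sum.inr) 3)
          ((((w ∘ some) ∘ some) ∘ Sum.inr) 4) (w (some none)) (w none) →
        H702R3.V ((((w ∘ some) ∘ some) ∘ Sum.inr) 2) ((((w ∘ some) ∘ some) ∘ Sum.inr) 3)
          ((((w ∘ some) ∘ some) ∘ Sum.inr) 4)
          (w (some none) * (((w ∘ some) ∘ some) ∘ Sum.inr) 0) h' →
        h' - t (((w ∘ some) ∘ some) ∘ Sum.inl) * (w none) ∈ A (((w ∘ some) ∘ some) ∘ Sum.inl)) ?_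
      refine (Df.V (hz3 2) (hz3 3) (hz3 4) (Tm.var (some (some none))) (Tm.var (some none))).imp
        ((Df.V (hz3 2) (hz3 3) (hz3 4) ((Tm.var (some (some none))).mul (hz3 0)) Tm.top).imp ?_)
      have := hA.comp (f := fun w : Option (Option (Option (α ⊕ Fin 5))) → H =>
        cons ((((w ∘ some) ∘ some) ∘ some) ∘ Sum.inl)
          (w none - t ((((w ∘ some) ∘ some) ∘ some) ∘ Sum.inl) * w (some none))) ?_
      · exact this
      · rintro (_ | i)
        · exact Tm.top.sub ((ht.comp fun i => Tm.var (some (some (some (Sum.inl i))))).mul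
            (Tm.var (some none)))
        · exact Tm.var (some (some (some (Sum.inl i))))
  refine main.congr fun v => ?_
  constructor
  · rintro ⟨z, h⟩
    exact ⟨z 0, z 1, z 2, z 3, z 4, h⟩
  · rintro ⟨T, U, M, e, k, h⟩
    exact ⟨![T, U, M, e, k], h⟩

/-- the iterated adjunction -/
def Bs (y : ℕ → H) : ℕ → Set H
  | 0 => {x | x = 0 ∨ IsUnit x}
  | (j + 1) => {x | Code (Bs y j) (y j) x}

theorem Df.bs (j : ℕ) : ∀ {α : Type} (y : ℕ → (α → H) → H), (∀ i, Tm c (y i)) →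
    Df c (fun w : Option α → H => w none ∈ Bs (fun i => y i (w ∘ some)) j) := by
  induction j with
  | zero =>
    intro α y hy
    exact (Df.eq Tm.top Tm.zero).or (Df.unit Tm.top)
  | succ j ih =>
    intro α y hy
    have h1 := ih (fun i (w : Option α → H) => y i (w ∘ some)) (fun i => (hy i).wk)
    exact Df.code (A := fun w : Option α → H => Bs (fun i => y i (w ∘ some)) j) h1 (hy j).wk Tm.top

end general

end Pool.Agent.H702R3
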