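import Pool.Agent.H702R3.DefCode

set_option autoImplicit false
set_option linter.style.haveILetI false

open MvPolynomial

namespace Pool.Agent.H702R3

variable {P : Type} [Field P] {m : ℕ}

/-- the iterated adjunction is the generated subalgebra -/
theorem bs_eq (y : ℕ → MvPolynomial (Fin m) P) (j : ℕ) (hj : j ≤ m) :
    Bs y j = (Algebra.adjoin P (y '' Set.Iio j) : Set (MvPolynomial (Fin m) P)) := by
  induction j with
  | zero =>
    ext x
    have : (y '' Set.Iio 0) = ∅ := by simp
    rw [this, Algebra.adjoin_empty]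
    change (x = 0 ∨ IsUnit x) ↔ x ∈ (⊥ : Subalgebra P (MvPolynomial (Fin m) P))
    rw [const_iff, Algebra.mem_bot]
    constructor
    · rintro ⟨a, rfl⟩
      exact ⟨a, rfl⟩
    · rintro ⟨a, rfl⟩
      exact ⟨a, rfl⟩
  | succ j ih =>
    obtain ⟨m, rfl⟩ : ∃ m', m = m' + 1 := ⟨m - 1, by omega⟩
    have ih' := ih (by omega)
    have hins : y '' Set.Iio (j + 1) = y '' Set.Iio j ∪ {y j} := by
      ext x
      simp only [Set.mem_image, Set.mem_Iio, Set.mem_union, Set.mem_singleton_iff]
      constructor
      · rintro ⟨i, hi, rfl⟩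
        rcases Nat.lt_or_ge i j with h | h
        · exact Or.inl ⟨i, h, rfl⟩
        · obtain rfl : i = j := by omega
          exact Or.inr rfl
      · rintro (⟨i, hi, rfl⟩ | rfl)
        · exact ⟨i, by omega, rfl⟩
        · exact ⟨j, by omega, rfl⟩
    ext x
    constructor
    · intro hx
      have hx' : Code (Bs y j) (y j) x := hx
      refine hx'.sound (Algebra.adjoin P (y '' Set.Iio (j + 1))).toSubring ?_ ?_
      · rw [ih']
        intro z hz
        exact Algebra.adjoin_mono (Set.image_mono (Set.Iio_subset_Iio (by omega))) hz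
      · exact Algebra.subset_adjoin ⟨j, by simp, rfl⟩
    · intro hx
      change Code (Bs y j) (y j) x
      rw [hins, Algebra.adjoin_union] at hx
      obtain ⟨p, hp⟩ := mem_adjoin_insert_iff (Algebra.adjoin P (y '' Set.Iio j)) (y j) x hx
      obtain ⟨N, h, h0, hs, hN⟩ := Chain.aeval (Algebra.adjoin P (y '' Set.Iio j)) (y j) p
      rw [ih', ← hp, ← hN]
      exact Code.complete N h h0 hs

/-- surjective endomorphisms of noetherian rings are injective -/
theorem inj_of_surj {R : Type} [CommRing R] [IsNoetherianRing R] (f : R →+* R)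
    (hf : Function.Surjective f) : Function.Injective f := by
  have hpow : ∀ n x, (f ^ (n + 1)) x = (f ^ n) (f x) := fun n x => by
    rw [pow_succ]
    rfl
  let K : ℕ →o Ideal R :=
    { toFun := fun n => RingHom.ker (f ^ n)
      monotone' := monotone_nat_of_le_succ fun n x hx => by
        rw [RingHom.mem_ker] at hx ⊢
        rw [pow_succ', RingHom.coe_mul, Function.comp_apply, hx, map_zero] }
  obtain ⟨n, hn⟩ := monotone_stabilizes_iff_noetherian.2 (inferInstance : IsNoetherian R R) K
  rw [injective_iff_map_eq_zero]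
  intro x hx
  have hs : Function.Surjective (f ^ n) := by
    clear hn
    induction n with
    | zero => intro y; exact ⟨y, rfl⟩
    | succ n ih =>
      intro y
      obtain ⟨z, rfl⟩ := ih y
      obtain ⟨w, rfl⟩ := hf z
      exact ⟨w, hpow n w⟩
  obtain ⟨z, rfl⟩ := hs x
  have h1 : z ∈ K (n + 1) := by
    change (f ^ (n + 1)) z = 0
    rw [pow_succ', RingHom.coe_mul, Function.comp_apply]
    exact hx
  rw [← hn (n + 1) (by omega)] at h1
  exact h1

/-- extension of a tuple to a sequence -/
def ext {H : Type} [Zero H] (y : Fin m → H) : ℕ → H := fun j => if h : j < m then y ⟨j, h⟩ else 0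

theorem ext_image {H : Type} [Zero H] (y : Fin m → H) : ext y '' Set.Iio m = Set.range y := by
  ext x
  constructor
  · rintro ⟨i, hi, rfl⟩
    have hi' : i < m := hi
    exact ⟨⟨i, hi'⟩, by simp [H702R3.ext, hi']⟩
  · rintro ⟨i, rfl⟩
    exact ⟨i, i.2, by simp [H702R3.ext]⟩

theorem gen_iff (y : Fin m → MvPolynomial (Fin m) P) :
    (∀ f, f ∈ Bs (ext y) m) ↔ Algebra.adjoin P (Set.range y) = ⊤ := by
  rw [bs_eq _ _ le_rfl, ext_image]
  constructor
  · intro h
    rw [eq_top_iff]
    intro x _
    exact h x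
  · intro h f
    rw [h]
    trivial

theorem tm_aeval {α : Type} (y : Fin m → (α → MvPolynomial (Fin m) P) → MvPolynomial (Fin m) P)
    (hy : ∀ i, Tm (algebraMap P (MvPolynomial (Fin m) P)) (y i)) (F : MvPolynomial (Fin m) P) :
    Tm (algebraMap P (MvPolynomial (Fin m) P)) (fun v => aeval (fun i => y i v) F) := by
  induction F using MvPolynomial.induction_on with
  | C a =>
    simp only [← MvPolynomial.algebraMap_eq, AlgHom.commutes]
    exact Tm.const a
  | add p q hp hq =>
    simp only [map_add]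
    exact hp.add hq
  | mul_X p i hp =>
    simp only [map_mul, aeval_X]
    exact hp.mul (hy i)

/-- the orbit formula -/
theorem df_orbit {n : ℕ} (a : Fin n → MvPolynomial (Fin m) P) :
    Df (algebraMap P (MvPolynomial (Fin m) P))
      (fun x : Fin n → MvPolynomial (Fin m) P => ∃ y : Fin m → MvPolynomial (Fin m) P,
        (∀ f, f ∈ Bs (ext y) m) ∧ ∀ i, x i = aeval y (a i)) := by
  refine Df.exFin ?_
  refine Df.and ?_ ?_
  · refine Df.all (φ := fun (w : Fin n ⊕ Fin m → MvPolynomial (Fin m) P) f =>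
      f ∈ Bs (ext (w ∘ Sum.inr)) m) ?_
    have h := Df.bs (c := algebraMap P (MvPolynomial (Fin m) P)) m
      (fun (j : ℕ) (w : Fin n ⊕ Fin m → MvPolynomial (Fin m) P) => ext (w ∘ Sum.inr) j) ?_
    · exact h
    · intro j
      unfold H702R3.ext
      by_cases hj : j < m
      · simp only [hj, dite_true]
        exact Tm.var (Sum.inr (⟨j, hj⟩ : Fin m))
      · simp only [hj, dite_false]
        exact Tm.zero
  · refine Df.forallFin fun i => Df.eq (Tm.var (Sum.inl i)) ?_
    exact tm_aeval (fun i (w : Fin n ⊕ Fin m → MvPolynomial (Fin m) P) => w (Sum.inr i))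
      (fun i => Tm.var _) (a i)

/-- polynomial algebras are logically homogeneous -/
theorem homogeneous (n : ℕ) (a b : Fin n → MvPolynomial (Fin m) P)
    (h : ∀ φ : FirstOrder.Language.ring.Formula (Fin n ⊕ P),
        (@FirstOrder.Language.Formula.Realize FirstOrder.Language.ring (MvPolynomial (Fin m) P)
            (FirstOrder.Ring.compatibleRingOfRing (MvPolynomial (Fin m) P)).toStructure
            (Fin n ⊕ P) φ (Sum.elim a (algebraMap P (MvPolynomial (Fin m) P))) ↔
          @FirstOrder.Language.Formula.Realize FirstOrder.Language.ring (MvPolynomial (Fin m) P)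
            (FirstOrder.Ring.compatibleRingOfRing (MvPolynomial (Fin m) P)).toStructure
            (Fin n ⊕ P) φ (Sum.elim b (algebraMap P (MvPolynomial (Fin m) P))))) :
    ∃ σ : MvPolynomial (Fin m) P ≃ₐ[P] MvPolynomial (Fin m) P, ∀ i, σ (a i) = b i := by
  obtain ⟨ψ, hψ⟩ := df_orbit a
  have ha : ∃ y : Fin m → MvPolynomial (Fin m) P,
        (∀ f, f ∈ Bs (ext y) m) ∧ ∀ i, a i = aeval y (a i) := by
    refine ⟨X, (gen_iff _).2 MvPolynomial.adjoin_range_X, fun i => ?_⟩
    rw [aeval_X_left_apply]
  obtain ⟨y, hy, hb⟩ := (hψ b).1 ((h ψ).1 ((hψ a).2 ha))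
  rw [gen_iff] at hy
  have hsurj : Function.Surjective (aeval y : MvPolynomial (Fin m) P →ₐ[P] _) := by
    rw [← AlgHom.range_eq_top, ← Algebra.adjoin_range_eq_range_aeval, hy]
  have hinj : Function.Injective (aeval y : MvPolynomial (Fin m) P →ₐ[P] _) :=
    inj_of_surj (aeval y : MvPolynomial (Fin m) P →ₐ[P] _).toRingHom hsurj
  exact ⟨AlgEquiv.ofBijective (aeval y) ⟨hinj, hsurj⟩, fun i => (hb i).symm⟩

end Pool.Agent.H702R3
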